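import Pool.Agent.H80.Grw10

set_option autoImplicit false

namespace Pool.Agent.Results.MP_b2ff63_pr.NotTransient

open Pool.Agent.H80.Grw MeasureTheory

theorem result : ∃ (V : Type) (G : SimpleGraph V) (v0 : V), Countable V ∧
    G.Connected ∧ (∀ v, (G.neighborSet v).Finite) ∧ RoughZ3 G ∧
    ∃ (_ : MeasurableSpace V) (_ : DiscreteMeasurableSpace V),
      (∃ μ : Measure (ℕ → V), IsGRW G v0 μ) ∧
      ∀ μ : Measure (ℕ → V), IsGRW G v0 μ → ∀ᵐ x ∂μ, {t | x t = v0}.Infinite :=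
  ⟨Vx P1, GG P1, hub P1 0, inferInstance, conn, fin_nb, rough, pack P1⟩

end Pool.Agent.Results.MP_b2ff63_pr.NotTransient
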